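import Pool.Agent.helper68.SF.Defs

/-!
Project sf: (MP_d52931_gt, full disproof, helper68), block T (rows st:XX): from the two curves `a⁴b³`, `a⁴b⁻³` to
the weighted count `SC` of the simple curves. Files `Pool/Agent/<seat>/SF/XX.lean`, namespace `SF`,
`theorem XX (h : YY_stmt) ... : XX_stmt`, auxiliary lemmas prefixed `XX_`.

All modules `XN .. XZ`, `tot` of project sl: are proved (see `Pool/Agent/helper68/AM/FinalX.lean` for the files).
-/

set_option autoImplicit false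

namespace SF

open Pool.Agent.helper72.Sq AM Matrix

/-- the curve `a⁴b³` -/
def g1 : F2 := ga ^ 4 * gb ^ 3
/-- the curve `a⁴b⁻³` -/
def g2 : F2 := ga ^ 4 * (gb ^ 3)⁻¹

/-- `(tr A, tr B, tr AB) ↦ len (tr A³B) + len (tr AB²)` -/
noncomputable def ec (Q : Tri) : ℝ :=
  len ((Q.1 ^ 2 - 1) * Q.2.2 - Q.1 * Q.2.1) + len (Q.2.1 * Q.2.2 - Q.1)

/-- `(A, B) ↦ (A, B⁻¹)` -/
def Nv (Q : Tri) : Tri := (Q.1, Q.2.1, Q.1 * Q.2.1 - Q.2.2)

/-- `(A, B) ↦ (B, A)` -/
def Sv (Q : Tri) : Tri := (Q.2.1, Q.1, Q.2.2)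

/-- number of elements of weight `≤ R` -/
noncomputable def cn {α : Type} (f : α → ℝ) (R : ℝ) : ℝ := ({a : α | f a ≤ R}.ncard : ℝ)

/-- equality up to a linear error -/
def LE (F G : ℝ → ℝ) : Prop := ∃ K : ℝ, ∀ R : ℝ, 1 ≤ R → |F R - G R| ≤ K * R

/-- finite sublevel sets, linearly many elements in windows of fixed length -/
def LW {α : Type} (f : α → ℝ) : Prop :=
  (∀ R, {a : α | f a ≤ R}.Finite) ∧
    ∀ C : ℝ, ∃ K : ℝ, ∀ R : ℝ, 1 ≤ R → ({a : α | |f a - R| ≤ C}.ncard : ℝ) ≤ K * R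

/-- length of the mediant of the node `w ++ s` -/
noncomputable def zl (P : Tri) (s w : List Bool) : ℝ := len (desc (w ++ s) P).2.2

/-- T1: algebra. With `z' = x y - z` we have `z z' = x² + y² + κ`. If `z ≥ z'` then `z ≥ x y / 2`, `y z - x ≥ x (y²/2 - 1) ≥ x y²/4`,
`(x² - 1) z - x y ≥ (x² - 3) z ≥ x² z / 4 ≥ x³ y / 8`. If `z' ≥ z` then `z' ≥ x y / 2`, `z ≤ 2 (x² + y² + κ)/(x y) ≤ C₀ max (x/y, y/x)`, and with
`t = x z - y`, `t y = z² + x² + κ` (so `t ≥ x²/y`), `((x² - 1) z - x y) z = t² + x² + κ`, `(y z - x) x = z² + y² + κ`: the product of the two numbers is at least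
`(t² + x²) y² / (x z)`, and `t² ≥ x⁴/y²` if `x ≥ y`; in both cases this is `≥ x² y / C₀`. -/
def T1_stmt : Prop := ∀ κ : ℝ, 0 ≤ κ → ∃ C : ℝ, 1 ≤ C ∧ ∀ x y z : ℝ, 2 < x → 2 < y → 2 < z →
  2 < x * y - z → x * y * z - x ^ 2 - y ^ 2 - z ^ 2 = κ →
  0 < (x ^ 2 - 1) * z - x * y ∧ 0 < y * z - x ∧
    x ^ 2 * y ≤ C * (((x ^ 2 - 1) * z - x * y) * (y * z - x))

/-- T2: `A⁴B³` is conjugate to `(B A³) (A B²)`, `tr (V W) = tr V tr W - tr (V W⁻¹)` (`XW2_tr` in helper46/AM/XW2.lean), and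
`V W⁻¹ = B A³ B⁻² A⁻¹` has the trace of `A³ B⁻² A⁻¹ B`, which by `XT` for the pair `(A, B⁻¹)` lies between `(τ - 16) (x² - 1) y` and `τ (x² - 1) y`
(`tr [A, B⁻¹] = tr [A, B] = τ`). So `tr (A⁴B³)` is `tr (A³B) tr (AB²)` up to a factor in `[1, 1 + (|τ| + 16) C]` (T1; `tr (A³B) = (x² - 1) z - x y`,
`tr (AB²) = y z - x`); both are `> 2` if they are `> 0`... they are traces of images of `a` under mapping classes in the application, here: hypotheses.
Then `2 log (t/2) ≤ len t ≤ 2 log t` for `t > 2` (`two_log_le_len`, `len_le_two_log`), as in `XW2`. Uses T1, XT. -/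
def T2_stmt : Prop := ∀ κ : ℝ, 0 ≤ κ → ∃ C : ℝ, ∀ A B : SpecialLinearGroup (Fin 2) ℝ,
  2 < tr A → 2 < tr B → 2 < tr (A * B) → 2 < tr (A⁻¹ * B) →
  tr (A * B * A⁻¹ * B⁻¹) = -2 - κ → 2 < tr (A ^ 3 * B) → 2 < tr (A * B ^ 2) →
    |2 * Real.arcosh (|tr (A ^ 4 * B ^ 3)| / 2) - ec (tr A, tr B, tr (A * B))| ≤ C

/-- T3: the indices. Take `φ` with `PConj (pr i) (φ a, φ b)` (XM), `cLen ρ (cv γ i) = gLen ρ (φ γ)` (`XL_len` in helper32/AM/XL.lean), traces by XE (also for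
`φ * (twA * twA * twA)`: `b ↦ a³ b`, and for `φ * twB * twB`: `a ↦ a b²`); the trace triple of `pr i` is the one of `(φ a, φ b)`. For `g2` use the pair
`(A, B⁻¹)`: `tr (A B⁻¹) = x y - z`, `tr (A⁻¹ B⁻¹) = z`, `tr [A, B⁻¹] = tr [A, B]`, images: `a³ b⁻¹` (inverse of `b a⁻³`, `b ↦ a⁻³ b` under `twA⁻³`), `a b⁻²`
(`twB⁻²`). Uses T2, XM, XE. -/
def T3_stmt : Prop := ∀ ρ : F2 →* SpecialLinearGroup (Fin 2) ℝ, Adm (trTri ρ (ga, gb)) →
  ∃ C : ℝ, ∀ i : Ix, |cLen ρ (cv g1 i) - ec (trTri ρ (pr i))| ≤ C ∧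
    |cLen ρ (cv g2 i) - ec (Nv (trTri ρ (pr i)))| ≤ C

/-- T4: trace triples of the indices: `XI_pd`, `XI_root` in helper43/AM/XI.lean and `trTri ρ (qt x) = Tw (trTri ρ x)`,
`trTri ρ (qt (qt x)) = trTri ρ x`. -/
def T4_stmt : Prop := ∀ (ρ : F2 →* SpecialLinearGroup (Fin 2) ℝ) (ε : Bool) (w : List Bool) (τ : Fin 4),
  let Q := desc w (if ε then trTri ρ (ga, gb) else Tw (trTri ρ (ga, gb)))
  (τ.val % 2 = 0 → trTri ρ (pr (ε, w, τ)) = Q) ∧ (τ.val % 2 = 1 → trTri ρ (pr (ε, w, τ)) = Tw Q)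

/-- T5: lengths at the nodes. `desc (w ++ s) P = desc s (desc w P)`; every `ec` is exactly (`ring`) a sum of two lengths of members of nodes at most 3 steps
below `Q = (x, y, z) = desc w P`; XB gives all lengths up to `O(1)` in terms of `X = len x`, `Y = len y` (at the node `w`):
`zl P s w = p X + q Y + O(1)`, `p + q` = mediant of `s` (TFF: 4,3; TFFF: 5,4; FTF: 3,5; FTT: 3,4; FTTT: 4,5; TFT: 5,3).
Even turns `ec Q = len (z of w++TT) + len (z of w++F)`. Odd turns, `Q' = desc (w ++ s) P`: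
s = TT: `ec (Tw Q') = len (z of w++TFT) + len y`; s = FT: `len (z of w++FFT) + len x`; s = TF: `len (z of w++F) + len (z of w++TT)`;
s = TFF: `len y + len (z of w++TFT)`; s = FFF: `len x + len (z of w++FFT)` (in this order or the other one). For `g2` the same with the roles of `x`, `y` and of
`T`, `F` exchanged (`Sv (Lm Q) = Rm (Sv Q)`, `Nv Q = Tw (Sv Q)`). Uses XB. -/
def T5_stmt : Prop := ∀ P : Tri, Adm P → ∃ C : ℝ, ∀ w : List Bool,
  (|ec (desc w P) - zl P [true, false, false] w| ≤ C ∧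
   |ec (Tw (desc (w ++ [true, true]) P)) - zl P [true, false, false, false] w| ≤ C ∧
   |ec (Tw (desc (w ++ [false, true]) P)) - zl P [false, true, false] w| ≤ C ∧
   |ec (Tw (desc (w ++ [true, false]) P)) - zl P [true, false, false] w| ≤ C ∧
   |ec (Tw (desc (w ++ [true, false, false]) P)) - zl P [true, false, false, false] w| ≤ C ∧
   |ec (Tw (desc (w ++ [false, false, false]) P)) - zl P [false, true, false] w| ≤ C) ∧
  (|ec (Sv (desc w P)) - zl P [false, true, true] w| ≤ C ∧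
   |ec (Nv (desc (w ++ [false, false]) P)) - zl P [false, true, true, true] w| ≤ C ∧
   |ec (Nv (desc (w ++ [true, false]) P)) - zl P [true, false, true] w| ≤ C ∧
   |ec (Nv (desc (w ++ [false, true]) P)) - zl P [false, true, true] w| ≤ C ∧
   |ec (Nv (desc (w ++ [false, true, true]) P)) - zl P [false, true, true, true] w| ≤ C ∧
   |ec (Nv (desc (w ++ [true, true, true]) P)) - zl P [true, false, true] w| ≤ C)

/-- T6: bounded perturbation of a weight: the two sublevel sets differ by elements of the window `|f a - R| ≤ C`. -/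
def T6_stmt : Prop := ∀ (α : Type) (f f' : α → ℝ) (C : ℝ), LW f → (∀ a, |f' a - f a| ≤ C) →
  (∀ R, {a : α | f' a ≤ R}.Finite) ∧ LE (cn f') (cn f)

/-- T7: windows. For `s = []` by XZ and `tot`: the number of nodes of both cones in `(R - C, R + C]` is `b (R + C)² - b (R - C)² + O(R)` (for `R ≥ C + 1`; for smaller
`R` all numbers are bounded). For general `s`: `w ↦ w ++ s` is injective and `zl P s w = zl P [] (w ++ s)`. -/
def T7_stmt : Prop := ∀ P : Tri, Adm P → ∀ s : List Bool, LW (zl P s) ∧ LW (zl (Tw P) s)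

/-- T8: decomposition of a finite set of words by suffixes: `S = {[]} ∪ S_T ∪ S_F`, applied four times. -/
def T8_stmt : Prop := ∀ S : Set (List Bool), S.Finite →
  |(S.ncard : ℝ) - ((({w | w ++ [true, true] ∈ S}.ncard : ℝ)) + ({w | w ++ [false, true] ∈ S}.ncard : ℝ) +
    ({w | w ++ [true, false] ∈ S}.ncard : ℝ) + ({w | w ++ [true, false, false] ∈ S}.ncard : ℝ) +
    ({w | w ++ [false, false, false] ∈ S}.ncard : ℝ))| ≤ 4 ∧
  |(S.ncard : ℝ) - ((({w | w ++ [false, false] ∈ S}.ncard : ℝ)) + ({w | w ++ [true, false] ∈ S}.ncard : ℝ) +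
    ({w | w ++ [false, true] ∈ S}.ncard : ℝ) + ({w | w ++ [false, true, true] ∈ S}.ncard : ℝ) +
    ({w | w ++ [true, true, true] ∈ S}.ncard : ℝ))| ≤ 4

/-- T9: count of the indices. `{i | f i ≤ R}` is the disjoint union over `ε`, `τ` of sets of words; even turns: T6, T7; odd turns: T8 and T6, T7 for
each of the 5 families. Total: `2 n_TFF + 2 (2 n_TFFF + 2 n_FTF + n_TFF)` in each cone. The same for `g2`. Uses T3, T4, T5, T6, T7, T8. -/
def T9_stmt : Prop := ∀ ρ : F2 →* SpecialLinearGroup (Fin 2) ℝ, Adm (trTri ρ (ga, gb)) →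
  let P := trTri ρ (ga, gb)
  ((∀ R, {i : Ix | cLen ρ (cv g1 i) ≤ R}.Finite) ∧
    LE (cn fun i : Ix => cLen ρ (cv g1 i)) (fun R => 4 * (
      (cn (zl P [true, false, false]) R + cn (zl P [true, false, false, false]) R + cn (zl P [false, true, false]) R) +
      (cn (zl (Tw P) [true, false, false]) R + cn (zl (Tw P) [true, false, false, false]) R +
        cn (zl (Tw P) [false, true, false]) R)))) ∧
  ((∀ R, {i : Ix | cLen ρ (cv g2 i) ≤ R}.Finite) ∧
    LE (cn fun i : Ix => cLen ρ (cv g2 i)) (fun R => 4 * (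
      (cn (zl P [false, true, true]) R + cn (zl P [false, true, true, true]) R + cn (zl P [true, false, true]) R) +
      (cn (zl (Tw P) [false, true, true]) R + cn (zl (Tw P) [false, true, true, true]) R +
        cn (zl (Tw P) [true, false, true]) R))))

/-- T10: the weighted count. `psi0` is the sum of `± 1` over the suffixes (they exclude each other); `{w | z w ≤ R, s <:+ w}` is the image of
`{w | zl P s w ≤ R}` under `w ↦ w ++ s`. -/
def T10_stmt : Prop := ∀ P : Tri, (∀ R, {w : List Bool | len (desc w P).2.2 ≤ R}.Finite) → ∀ R : ℝ,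
  ∑ᶠ w ∈ {w : List Bool | len (desc w P).2.2 ≤ R}, psi0 w =
    (cn (zl P [true, false, false]) R + cn (zl P [true, false, false, false]) R + cn (zl P [false, true, false]) R) -
    (cn (zl P [false, true, true]) R + cn (zl P [false, true, true, true]) R + cn (zl P [true, false, true]) R)

/-- T11: from the law to the count (`u > 0` since the sublevel sets are finite; then invert `|u √(k+1) + v - L_k| ≤ C`). -/
def T11_stmt : Prop := ∀ (ρ : F2 →* SpecialLinearGroup (Fin 2) ℝ) (g : F2),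
  (∀ R, {x : orb g | cLen ρ x ≤ R}.Finite) → WL ρ g →
  ∃ b K : ℝ, ∀ R : ℝ, 1 ≤ R → |({x : orb g | cLen ρ x ≤ R}.ncard : ℝ) - b * R ^ 2| ≤ K * R

/-- T: THE REDUCTION. XF: `cn ≈ s_i N_i`, `s_i ≥ 1`; T11: `N_i ≈ b_i R²`; T9, T10. Uses T7, T9, T10, T11, XF. -/
def T_stmt : Prop := ∀ ρ : F2 →* SpecialLinearGroup (Fin 2) ℝ, Adm (trTri ρ (ga, gb)) →
  (∀ R, {x : orb g1 | cLen ρ x ≤ R}.Finite) ∧ (∀ R, {x : orb g2 | cLen ρ x ≤ R}.Finite) ∧
  (WL ρ g1 → WL ρ g2 → QL (trTri ρ (ga, gb)))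

end SF
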