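import Pool.Agent.helper72.SF.SpecT

set_option autoImplicit false

namespace SF

open Pool.Agent.helper72.Sq AM Matrix

theorem T (XF : XF_stmt) (T7 : T7_stmt) (T9 : T9_stmt) (T10 : T10_stmt) (T11 : T11_stmt) :
    T_stmt := by
  intro ρ hA
  obtain ⟨⟨f1, K1, h1⟩, f2, K2, h2⟩ := T9 ρ hA
  set P := trTri ρ (ga, gb) with hP
  obtain ⟨s1, hs1, fin1, c1⟩ := XF ρ g1 f1
  obtain ⟨s2, hs2, fin2, c2⟩ := XF ρ g2 f2
  refine ⟨fin1, fin2, fun w1 w2 => ?_⟩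
  obtain ⟨b1, L1, k1⟩ := T11 ρ g1 fin1 w1
  obtain ⟨b2, L2, k2⟩ := T11 ρ g2 fin2 w2
  have z1 : ∀ R, {w : List Bool | len (desc w P).2.2 ≤ R}.Finite := by
    intro R
    have h := (T7 P hA []).1.1 R
    have e : {w : List Bool | zl P [] w ≤ R} = {w : List Bool | len (desc w P).2.2 ≤ R} := by
      ext w
      simp [zl]
    rwa [e] at h
  have z2 : ∀ R, {w : List Bool | len (desc w (Tw P)).2.2 ≤ R}.Finite := by
    intro R
    have h := (T7 P hA []).2.1 R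
    have e : {w : List Bool | zl (Tw P) [] w ≤ R} =
        {w : List Bool | len (desc w (Tw P)).2.2 ≤ R} := by
      ext w
      simp [zl]
    rwa [e] at h
  have hs1' : (1 : ℝ) ≤ s1 := by exact_mod_cast hs1
  have hs2' : (1 : ℝ) ≤ s2 := by exact_mod_cast hs2
  refine ⟨(s1 * b1 - s2 * b2) / 4, (K1 + K2 + s1 * L1 + s2 * L2 + 16) / 4, fun R hR => ?_⟩
  unfold SC
  rw [T10 P z1 R, T10 (Tw P) z2 R]
  have a1 := abs_le.1 (h1 R hR)
  have a2 := abs_le.1 (h2 R hR)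
  have a3 := abs_le.1 (c1 R)
  have a4 := abs_le.1 (c2 R)
  have a5 := abs_le.1 (k1 R hR)
  have a6 := abs_le.1 (k2 R hR)
  have e1 : cn (fun i : Ix => cLen ρ (cv g1 i)) R =
    (({i : Ix | cLen ρ (cv g1 i) ≤ R}.ncard : ℕ) : ℝ) := rfl
  have e2 : cn (fun i : Ix => cLen ρ (cv g2 i)) R =
    (({i : Ix | cLen ρ (cv g2 i) ≤ R}.ncard : ℕ) : ℝ) := rfl
  rw [← e1] at a3
  rw [← e2] at a4
  have m1 := mul_le_mul_of_nonneg_left a5.1 (by linarith : (0 : ℝ) ≤ s1)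
  have m2 := mul_le_mul_of_nonneg_left a5.2 (by linarith : (0 : ℝ) ≤ s1)
  have m3 := mul_le_mul_of_nonneg_left a6.1 (by linarith : (0 : ℝ) ≤ s2)
  have m4 := mul_le_mul_of_nonneg_left a6.2 (by linarith : (0 : ℝ) ≤ s2)
  generalize cn (fun i : Ix => cLen ρ (cv g1 i)) R = I1 at *
  generalize cn (fun i : Ix => cLen ρ (cv g2 i)) R = I2 at *
  generalize (({x : orb g1 | cLen ρ x ≤ R}.ncard : ℕ) : ℝ) = N1 at *
  generalize (({x : orb g2 | cLen ρ x ≤ R}.ncard : ℕ) : ℝ) = N2 at *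
  simp only at a1 a2
  obtain ⟨a1l, a1r⟩ := a1
  obtain ⟨a2l, a2r⟩ := a2
  rw [abs_le]
  constructor
  · nlinarith [a3.1, a3.2, a4.1, a4.2]
  · nlinarith [a3.1, a3.2, a4.1, a4.2]

end SF
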