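import Pool.Agent.helper72.SF.SpecT

set_option autoImplicit false

namespace SF

open Pool.Agent.helper72.Sq AM Matrix

theorem T9_LE_refl (F : ℝ → ℝ) : LE F F := ⟨0, fun R _ => by simp⟩

theorem T9_LE_add {F G F' G' : ℝ → ℝ} (h : LE F G) (h' : LE F' G') :
    LE (fun R => F R + F' R) (fun R => G R + G' R) := by
  obtain ⟨K, hK⟩ := h
  obtain ⟨K', hK'⟩ := h'
  refine ⟨K + K', fun R hR => ?_⟩
  have e : F R + F' R - (G R + G' R) = (F R - G R) + (F' R - G' R) := by ring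
  rw [e]
  have := abs_add_le (F R - G R) (F' R - G' R)
  linarith [hK R hR, hK' R hR]

theorem T9_LE_trans {F G H : ℝ → ℝ} (h : LE F G) (h' : LE G H) : LE F H := by
  obtain ⟨K, hK⟩ := h
  obtain ⟨K', hK'⟩ := h'
  refine ⟨K + K', fun R hR => ?_⟩
  have e : F R - H R = (F R - G R) + (G R - H R) := by ring
  rw [e]
  have := abs_add_le (F R - G R) (G R - H R)
  linarith [hK R hR, hK' R hR]

theorem T9_LE_sum {ι : Type} (s : Finset ι) {F G : ι → ℝ → ℝ} (h : ∀ i ∈ s, LE (F i) (G i)) :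
    LE (fun R => ∑ i ∈ s, F i R) (fun R => ∑ i ∈ s, G i R) := by
  classical
  induction s using Finset.induction_on with
  | empty => simpa using T9_LE_refl (fun _ => (0 : ℝ))
  | insert a s ha ih =>
    have h1 := h a (Finset.mem_insert_self a s)
    have h2 := ih fun i hi => h i (Finset.mem_insert_of_mem hi)
    have h3 := T9_LE_add h1 h2
    have e : ∀ F : ι → ℝ → ℝ, (fun R => ∑ i ∈ insert a s, F i R) =
        (fun R => F a R + ∑ i ∈ s, F i R) := by
      intro F; funext R; exact Finset.sum_insert ha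
    rw [e, e]
    exact h3

/-- the sublevel sets of a function of an index -/
theorem T9_split (f : Ix → ℝ) (hfin : ∀ (p : Bool × Fin 4) (R : ℝ),
    {w : List Bool | f (p.1, w, p.2) ≤ R}.Finite) :
    (∀ R, {i : Ix | f i ≤ R}.Finite) ∧
      ∀ R, cn f R = ∑ p : Bool × Fin 4, cn (fun w : List Bool => f (p.1, w, p.2)) R := by
  classical
  have hun : ∀ R, {i : Ix | f i ≤ R} = ⋃ p ∈ (Finset.univ : Finset (Bool × Fin 4)),
      (fun w : List Bool => ((p.1, w, p.2) : Ix)) '' {w : List Bool | f (p.1, w, p.2) ≤ R} := by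
    intro R
    ext i
    simp only [Set.mem_iUnion, Set.mem_image, Finset.mem_univ, exists_true_left]
    constructor
    · intro hi
      exact ⟨(i.1, i.2.2), i.2.1, hi, rfl⟩
    · rintro ⟨p, w, hw, rfl⟩
      exact hw
  have hfin2 : ∀ R, {i : Ix | f i ≤ R}.Finite := by
    intro R
    rw [hun R]
    exact Set.Finite.biUnion (Finset.finite_toSet _) fun p _ => (hfin p R).image _
  refine ⟨hfin2, fun R => ?_⟩
  have h1 : {i : Ix | f i ≤ R}.ncard = (hfin2 R).toFinset.card :=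
    Set.ncard_eq_toFinset_card _ (hfin2 R)
  have h2 := Finset.card_eq_sum_card_fiberwise (f := fun i : Ix => (i.1, i.2.2))
    (s := (hfin2 R).toFinset) (t := (Finset.univ : Finset (Bool × Fin 4)))
    (fun i _ => Finset.mem_coe.2 (Finset.mem_univ _))
  unfold cn
  rw [h1, h2, Nat.cast_sum]
  refine Finset.sum_congr rfl fun p _ => ?_
  congr 1
  have h3 : ({w : List Bool | f (p.1, w, p.2) ≤ R}).ncard =
      ((fun w : List Bool => ((p.1, w, p.2) : Ix)) ''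
        {w : List Bool | f (p.1, w, p.2) ≤ R}).ncard := by
    rw [Set.ncard_image_of_injective]
    intro w w' h
    exact congrArg (fun i : Ix => i.2.1) h
  rw [h3, ← Set.ncard_coe_finset]
  congr 1
  ext i
  simp only [Finset.coe_filter, Set.Finite.mem_toFinset, Set.mem_image]
  constructor
  · rintro ⟨hi, rfl⟩
    exact ⟨i.2.1, hi, rfl⟩
  · rintro ⟨w, hw, rfl⟩
    exact ⟨hw, rfl⟩

/-- every word is short or ends with one of the five suffixes (two lists) -/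
theorem T9_word (w : List Bool) (b : Bool) :
    w ∈ ({[], [true], [false], [!b, !b]} : Set (List Bool)) ∨
      ∃ w', w = w' ++ [b, b] ∨ w = w' ++ [!b, b] ∨ w = w' ++ [b, !b] ∨
        w = w' ++ [b, !b, !b] ∨ w = w' ++ [!b, !b, !b] := by
  rcases w.eq_nil_or_concat with rfl | ⟨w1, c1, rfl⟩
  · left; simp
  rcases w1.eq_nil_or_concat with rfl | ⟨w2, c2, rfl⟩
  · left; cases c1 <;> simp
  by_cases h1 : c2 = b ∧ c1 = b
  · right; exact ⟨w2, Or.inl (by rw [h1.1, h1.2]; simp)⟩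
  by_cases h2 : c2 = !b ∧ c1 = b
  · right; exact ⟨w2, Or.inr (Or.inl (by rw [h2.1, h2.2]; simp))⟩
  by_cases h3 : c2 = b ∧ c1 = !b
  · right; exact ⟨w2, Or.inr (Or.inr (Or.inl (by rw [h3.1, h3.2]; simp)))⟩
  have h4 : c2 = !b ∧ c1 = !b := by
    cases b <;> cases c1 <;> cases c2 <;> simp_all
  rw [h4.1, h4.2]
  rcases w2.eq_nil_or_concat with rfl | ⟨w3, c3, rfl⟩
  · left; simp
  · right
    by_cases h5 : c3 = b
    · exact ⟨w3, Or.inr (Or.inr (Or.inr (Or.inl (by rw [h5]; simp))))⟩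
    · have h6 : c3 = !b := by cases b <;> cases c3 <;> simp_all
      exact ⟨w3, Or.inr (Or.inr (Or.inr (Or.inr (by rw [h6]; simp))))⟩

/-- finiteness from the five families -/
theorem T9_fin (S : Set (List Bool)) (b : Bool) (h1 : {w | w ++ [b, b] ∈ S}.Finite)
    (h2 : {w | w ++ [!b, b] ∈ S}.Finite) (h3 : {w | w ++ [b, !b] ∈ S}.Finite)
    (h4 : {w | w ++ [b, !b, !b] ∈ S}.Finite) (h5 : {w | w ++ [!b, !b, !b] ∈ S}.Finite) :
    S.Finite := by
  have hs : ({[], [true], [false], [!b, !b]} : Set (List Bool)).Finite := by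
    simp
  refine (hs.union ((h1.image (· ++ [b, b])).union ((h2.image (· ++ [!b, b])).union
    ((h3.image (· ++ [b, !b])).union ((h4.image (· ++ [b, !b, !b])).union
      (h5.image (· ++ [!b, !b, !b]))))))).subset ?_
  intro w hw
  rcases T9_word w b with h | ⟨w', h | h | h | h | h⟩
  · exact Or.inl h
  · exact Or.inr (Or.inl ⟨w', by rw [h] at hw; exact hw, h.symm⟩)
  · exact Or.inr (Or.inr (Or.inl ⟨w', by rw [h] at hw; exact hw, h.symm⟩))
  · exact Or.inr (Or.inr (Or.inr (Or.inl ⟨w', by rw [h] at hw; exact hw, h.symm⟩)))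
  · exact Or.inr (Or.inr (Or.inr (Or.inr (Or.inl ⟨w', by rw [h] at hw; exact hw, h.symm⟩))))
  · exact Or.inr (Or.inr (Or.inr (Or.inr (Or.inr ⟨w', by rw [h] at hw; exact hw, h.symm⟩))))

/-- odd turns -/
theorem T9_odd (T6 : T6_stmt) (b : Bool) (f : List Bool → ℝ) (u1 u2 u3 : List Bool → ℝ) (C : ℝ)
    (l1 : LW u1) (l2 : LW u2) (l3 : LW u3)
    (h1 : ∀ w, |f (w ++ [b, b]) - u1 w| ≤ C) (h2 : ∀ w, |f (w ++ [!b, b]) - u2 w| ≤ C)
    (h3 : ∀ w, |f (w ++ [b, !b]) - u3 w| ≤ C) (h4 : ∀ w, |f (w ++ [b, !b, !b]) - u1 w| ≤ C)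
    (h5 : ∀ w, |f (w ++ [!b, !b, !b]) - u2 w| ≤ C)
    (h8 : ∀ S : Set (List Bool), S.Finite →
      |(S.ncard : ℝ) - ((({w | w ++ [b, b] ∈ S}.ncard : ℝ)) + ({w | w ++ [!b, b] ∈ S}.ncard : ℝ) +
        ({w | w ++ [b, !b] ∈ S}.ncard : ℝ) + ({w | w ++ [b, !b, !b] ∈ S}.ncard : ℝ) +
        ({w | w ++ [!b, !b, !b] ∈ S}.ncard : ℝ))| ≤ 4) :
    (∀ R, {w : List Bool | f w ≤ R}.Finite) ∧
      LE (cn f) (fun R => 2 * cn u1 R + 2 * cn u2 R + cn u3 R) := by
  obtain ⟨f1, e1⟩ := T6 _ u1 (fun w => f (w ++ [b, b])) C l1 h1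
  obtain ⟨f2, e2⟩ := T6 _ u2 (fun w => f (w ++ [!b, b])) C l2 h2
  obtain ⟨f3, e3⟩ := T6 _ u3 (fun w => f (w ++ [b, !b])) C l3 h3
  obtain ⟨f4, e4⟩ := T6 _ u1 (fun w => f (w ++ [b, !b, !b])) C l1 h4
  obtain ⟨f5, e5⟩ := T6 _ u2 (fun w => f (w ++ [!b, !b, !b])) C l2 h5
  have hfin : ∀ R, {w : List Bool | f w ≤ R}.Finite := fun R =>
    T9_fin _ b (f1 R) (f2 R) (f3 R) (f4 R) (f5 R)
  refine ⟨hfin, ?_⟩
  obtain ⟨K1, g1⟩ := e1
  obtain ⟨K2, g2⟩ := e2
  obtain ⟨K3, g3⟩ := e3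
  obtain ⟨K4, g4⟩ := e4
  obtain ⟨K5, g5⟩ := e5
  refine ⟨4 + K1 + K2 + K3 + K4 + K5, fun R hR => ?_⟩
  have g6 := h8 _ (hfin R)
  have a1 := abs_le.1 (g1 R hR)
  have a2 := abs_le.1 (g2 R hR)
  have a3 := abs_le.1 (g3 R hR)
  have a4 := abs_le.1 (g4 R hR)
  have a5 := abs_le.1 (g5 R hR)
  have a6 := abs_le.1 g6
  have e : ∀ t : List Bool, ({w | w ++ t ∈ {w : List Bool | f w ≤ R}}.ncard : ℝ) =
      cn (fun w => f (w ++ t)) R := fun t => rfl
  rw [e, e, e, e, e] at a6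
  have e' : (({w : List Bool | f w ≤ R}.ncard : ℕ) : ℝ) = cn f R := rfl
  rw [e'] at a6
  rw [abs_le]
  constructor
  · nlinarith [a1.1, a2.1, a3.1, a4.1, a5.1, a6.1]
  · nlinarith [a1.2, a2.2, a3.2, a4.2, a5.2, a6.2]

/-- the count for one curve -/
theorem T9_curve (T6 : T6_stmt) (b : Bool) (G : Ix → ℝ) (r : ℕ) (hr : r = 0 ∨ r = 1)
    (u1 u2 u3 : Bool → List Bool → ℝ) (C : ℝ)
    (l1 : ∀ ε, LW (u1 ε)) (l2 : ∀ ε, LW (u2 ε)) (l3 : ∀ ε, LW (u3 ε))
    (h0 : ∀ ε w (τ : Fin 4), τ.val % 2 = r → |G (ε, w, τ) - u3 ε w| ≤ C)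
    (h1 : ∀ ε w (τ : Fin 4), τ.val % 2 = 1 - r → |G (ε, w ++ [b, b], τ) - u1 ε w| ≤ C)
    (h2 : ∀ ε w (τ : Fin 4), τ.val % 2 = 1 - r → |G (ε, w ++ [!b, b], τ) - u2 ε w| ≤ C)
    (h3 : ∀ ε w (τ : Fin 4), τ.val % 2 = 1 - r → |G (ε, w ++ [b, !b], τ) - u3 ε w| ≤ C)
    (h4 : ∀ ε w (τ : Fin 4), τ.val % 2 = 1 - r → |G (ε, w ++ [b, !b, !b], τ) - u1 ε w| ≤ C)
    (h5 : ∀ ε w (τ : Fin 4), τ.val % 2 = 1 - r → |G (ε, w ++ [!b, !b, !b], τ) - u2 ε w| ≤ C)
    (h8 : ∀ S : Set (List Bool), S.Finite →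
      |(S.ncard : ℝ) - ((({w | w ++ [b, b] ∈ S}.ncard : ℝ)) + ({w | w ++ [!b, b] ∈ S}.ncard : ℝ) +
        ({w | w ++ [b, !b] ∈ S}.ncard : ℝ) + ({w | w ++ [b, !b, !b] ∈ S}.ncard : ℝ) +
        ({w | w ++ [!b, !b, !b] ∈ S}.ncard : ℝ))| ≤ 4) :
    (∀ R, {i : Ix | G i ≤ R}.Finite) ∧
      LE (cn G) (fun R => 4 * ((cn (u3 true) R + cn (u1 true) R + cn (u2 true) R) +
        (cn (u3 false) R + cn (u1 false) R + cn (u2 false) R))) := by
  have hp : ∀ p : Bool × Fin 4, (∀ R, {w : List Bool | G (p.1, w, p.2) ≤ R}.Finite) ∧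
      LE (cn fun w : List Bool => G (p.1, w, p.2)) (fun R => if p.2.val % 2 = r then cn (u3 p.1) R
        else 2 * cn (u1 p.1) R + 2 * cn (u2 p.1) R + cn (u3 p.1) R) := by
    rintro ⟨ε, τ⟩
    by_cases hτ : τ.val % 2 = r
    · simp only [hτ, if_true]
      exact T6 _ (u3 ε) (fun w => G (ε, w, τ)) C (l3 ε) (fun w => h0 ε w τ hτ)
    · have hτ1 : τ.val % 2 = 1 - r := by omega
      simp only [hτ, if_false]
      exact T9_odd T6 b (fun w => G (ε, w, τ)) (u1 ε) (u2 ε) (u3 ε) C (l1 ε) (l2 ε) (l3 ε)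
        (fun w => h1 ε w τ hτ1) (fun w => h2 ε w τ hτ1) (fun w => h3 ε w τ hτ1)
        (fun w => h4 ε w τ hτ1) (fun w => h5 ε w τ hτ1) h8
  obtain ⟨hfin, hsum⟩ := T9_split G (fun p => (hp p).1)
  refine ⟨hfin, ?_⟩
  have h6 := T9_LE_sum (Finset.univ : Finset (Bool × Fin 4)) (fun p _ => (hp p).2)
  have e1 : cn G = fun R => ∑ p : Bool × Fin 4, cn (fun w : List Bool => G (p.1, w, p.2)) R := by
    funext R; exact hsum R
  have e2 : (fun R => 4 * ((cn (u3 true) R + cn (u1 true) R + cn (u2 true) R) +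
        (cn (u3 false) R + cn (u1 false) R + cn (u2 false) R))) = fun R => ∑ p : Bool × Fin 4,
        (if p.2.val % 2 = r then cn (u3 p.1) R
        else 2 * cn (u1 p.1) R + 2 * cn (u2 p.1) R + cn (u3 p.1) R) := by
    funext R
    rw [Fintype.sum_prod_type]
    simp only [Fintype.sum_bool, Fin.sum_univ_four]
    rcases hr with rfl | rfl
    · norm_num
      ring
    · norm_num
      ring
  rw [e1, e2]
  exact h6

theorem T9 (T3 : T3_stmt) (T4 : T4_stmt) (T5 : T5_stmt) (T6 : T6_stmt) (T7 : T7_stmt)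
    (T8 : T8_stmt) : T9_stmt := by
  intro ρ hA P
  obtain ⟨C3, h3⟩ := T3 ρ hA
  obtain ⟨Ca, ha⟩ := T5 P hA
  obtain ⟨Cb, hb⟩ := T5 (Tw P) hA.Tw
  have hl : ∀ (ε : Bool) (s : List Bool), LW (zl (if ε then P else Tw P) s) := by
    intro ε s
    cases ε
    · exact (T7 P hA s).2
    · exact (T7 P hA s).1
  have tri : ∀ {a b c x y : ℝ}, |a - b| ≤ x → |b - c| ≤ y → |a - c| ≤ x + y := by
    intro a b c x y h1 h2
    have e : a - c = (a - b) + (b - c) := by ring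
    rw [e]
    exact (abs_add_le _ _).trans (add_le_add h1 h2)
  have hC5 : ∃ C5 : ℝ, ∀ (ε : Bool) (w : List Bool),
      (|ec (desc w (if ε then P else Tw P)) - zl (if ε then P else Tw P) [true, false, false] w| ≤ C5 ∧
       |ec (Tw (desc (w ++ [true, true]) (if ε then P else Tw P))) -
          zl (if ε then P else Tw P) [true, false, false, false] w| ≤ C5 ∧
       |ec (Tw (desc (w ++ [false, true]) (if ε then P else Tw P))) -
          zl (if ε then P else Tw P) [false, true, false] w| ≤ C5 ∧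
       |ec (Tw (desc (w ++ [true, false]) (if ε then P else Tw P))) -
          zl (if ε then P else Tw P) [true, false, false] w| ≤ C5 ∧
       |ec (Tw (desc (w ++ [true, false, false]) (if ε then P else Tw P))) -
          zl (if ε then P else Tw P) [true, false, false, false] w| ≤ C5 ∧
       |ec (Tw (desc (w ++ [false, false, false]) (if ε then P else Tw P))) -
          zl (if ε then P else Tw P) [false, true, false] w| ≤ C5) ∧
      (|ec (Sv (desc w (if ε then P else Tw P))) - zl (if ε then P else Tw P) [false, true, true] w| ≤ C5 ∧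
       |ec (Nv (desc (w ++ [false, false]) (if ε then P else Tw P))) -
          zl (if ε then P else Tw P) [false, true, true, true] w| ≤ C5 ∧
       |ec (Nv (desc (w ++ [true, false]) (if ε then P else Tw P))) -
          zl (if ε then P else Tw P) [true, false, true] w| ≤ C5 ∧
       |ec (Nv (desc (w ++ [false, true]) (if ε then P else Tw P))) -
          zl (if ε then P else Tw P) [false, true, true] w| ≤ C5 ∧
       |ec (Nv (desc (w ++ [false, true, true]) (if ε then P else Tw P))) -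
          zl (if ε then P else Tw P) [false, true, true, true] w| ≤ C5 ∧
       |ec (Nv (desc (w ++ [true, true, true]) (if ε then P else Tw P))) -
          zl (if ε then P else Tw P) [true, false, true] w| ≤ C5) := by
    refine ⟨max Ca Cb, fun ε w => ?_⟩
    cases ε
    · obtain ⟨⟨q1, q2, q3, q4, q5, q6⟩, q7, q8, q9, q10, q11, q12⟩ := hb w
      have m := le_max_right Ca Cb
      exact ⟨⟨q1.trans m, q2.trans m, q3.trans m, q4.trans m, q5.trans m, q6.trans m⟩,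
        q7.trans m, q8.trans m, q9.trans m, q10.trans m, q11.trans m, q12.trans m⟩
    · obtain ⟨⟨q1, q2, q3, q4, q5, q6⟩, q7, q8, q9, q10, q11, q12⟩ := ha w
      have m := le_max_left Ca Cb
      exact ⟨⟨q1.trans m, q2.trans m, q3.trans m, q4.trans m, q5.trans m, q6.trans m⟩,
        q7.trans m, q8.trans m, q9.trans m, q10.trans m, q11.trans m, q12.trans m⟩
  obtain ⟨C5, h5⟩ := hC5
  constructor
  · exact T9_curve T6 true (fun i => cLen ρ (cv g1 i)) 0 (Or.inl rfl)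
      (fun ε => zl (if ε then P else Tw P) [true, false, false, false])
      (fun ε => zl (if ε then P else Tw P) [false, true, false])
      (fun ε => zl (if ε then P else Tw P) [true, false, false]) (C3 + C5)
      (fun ε => hl ε _) (fun ε => hl ε _) (fun ε => hl ε _)
      (fun ε w τ hτ => tri (h3 (ε, w, τ)).1 (by rw [(T4 ρ ε w τ).1 hτ]; exact (h5 ε w).1.1))
      (fun ε w τ hτ => tri (h3 (ε, _, τ)).1
        (by rw [(T4 ρ ε _ τ).2 hτ]; exact (h5 ε w).1.2.1))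
      (fun ε w τ hτ => tri (h3 (ε, _, τ)).1
        (by rw [(T4 ρ ε _ τ).2 hτ]; exact (h5 ε w).1.2.2.1))
      (fun ε w τ hτ => tri (h3 (ε, _, τ)).1
        (by rw [(T4 ρ ε _ τ).2 hτ]; exact (h5 ε w).1.2.2.2.1))
      (fun ε w τ hτ => tri (h3 (ε, _, τ)).1
        (by rw [(T4 ρ ε _ τ).2 hτ]; exact (h5 ε w).1.2.2.2.2.1))
      (fun ε w τ hτ => tri (h3 (ε, _, τ)).1
        (by rw [(T4 ρ ε _ τ).2 hτ]; exact (h5 ε w).1.2.2.2.2.2))
      (fun S hS => (T8 S hS).1)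
  · have eo : ∀ Q : Tri, Nv (Tw Q) = Sv Q := by
      intro Q
      unfold Nv Tw Sv
      refine Prod.ext rfl (Prod.ext rfl ?_)
      show Q.2.1 * Q.1 - (Q.1 * Q.2.1 - Q.2.2) = Q.2.2
      ring
    exact T9_curve T6 false (fun i => cLen ρ (cv g2 i)) 1 (Or.inr rfl)
      (fun ε => zl (if ε then P else Tw P) [false, true, true, true])
      (fun ε => zl (if ε then P else Tw P) [true, false, true])
      (fun ε => zl (if ε then P else Tw P) [false, true, true]) (C3 + C5)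
      (fun ε => hl ε _) (fun ε => hl ε _) (fun ε => hl ε _)
      (fun ε w τ hτ => tri (h3 (ε, w, τ)).2
        (by rw [(T4 ρ ε w τ).2 hτ, eo]; exact (h5 ε w).2.1))
      (fun ε w τ hτ => tri (h3 (ε, _, τ)).2
        (by rw [(T4 ρ ε _ τ).1 hτ]; exact (h5 ε w).2.2.1))
      (fun ε w τ hτ => tri (h3 (ε, _, τ)).2
        (by rw [(T4 ρ ε _ τ).1 hτ]; exact (h5 ε w).2.2.2.1))
      (fun ε w τ hτ => tri (h3 (ε, _, τ)).2
        (by rw [(T4 ρ ε _ τ).1 hτ]; exact (h5 ε w).2.2.2.2.1))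
      (fun ε w τ hτ => tri (h3 (ε, _, τ)).2
        (by rw [(T4 ρ ε _ τ).1 hτ]; exact (h5 ε w).2.2.2.2.2.1))
      (fun ε w τ hτ => tri (h3 (ε, _, τ)).2
        (by rw [(T4 ρ ε _ τ).1 hτ]; exact (h5 ε w).2.2.2.2.2.2))
      (fun S hS => (T8 S hS).2)

end SF
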