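import Pool.Agent.helper1.SF.SpecA

/-!
Project SF, block sa: GJF, the fine bound of the contribution of a node.
-/

set_option autoImplicit false

namespace SF

open Pool.Agent.helper72.Sq MeasureTheory Set

/-- `√(δ/4) = √δ / 2` -/
lemma GJF_sq {δ : ℝ} (h : 0 < δ) : √(δ / 4) = √δ / 2 := by
  rw [Real.sqrt_div h.le]
  congr 1
  rw [show (4 : ℝ) = 2 ^ 2 by norm_num, Real.sqrt_sq (by norm_num)]

/-- size comparisons -/
lemma GJF_c1 {k : ℕ} {δ S : ℝ} (h0 : 0 < δ) (h1 : δ ≤ 1) (hS : 1 ≤ S) :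
    S ^ 2 / √(2 ^ k) ≤ S ^ 4 / √δ / √(√(2 ^ k)) ∧
    S ^ 2 / √δ / √(2 ^ k) ≤ S ^ 4 / √δ / √(√(2 ^ k)) := by
  have hk : (1 : ℝ) ≤ 2 ^ k := one_le_pow₀ (by norm_num)
  have hq : 1 ≤ √((2 : ℝ) ^ k) := Real.one_le_sqrt.2 hk
  have hqq : 1 ≤ √(√((2 : ℝ) ^ k)) := Real.one_le_sqrt.2 hq
  have hq2 : √(√((2 : ℝ) ^ k)) ≤ √((2 : ℝ) ^ k) := by
    rw [Real.sqrt_le_left (by positivity)]
    nlinarith
  have hd : √δ ≤ 1 := by
    have := Real.sqrt_le_sqrt h1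
    rwa [Real.sqrt_one] at this
  have hd0 : 0 < √δ := Real.sqrt_pos.2 h0
  have hS2 : S ^ 2 ≤ S ^ 4 := pow_le_pow_right₀ hS (by norm_num)
  have hS0 : 0 ≤ S ^ 2 := by positivity
  have e1 : S ^ 2 / √δ / √(2 ^ k) ≤ S ^ 4 / √δ / √(√(2 ^ k)) := by
    gcongr
  have e2 : S ^ 2 / √(2 ^ k) ≤ S ^ 2 / √δ / √(2 ^ k) := by
    gcongr
    rw [le_div_iff₀ hd0]
    nlinarith
  exact ⟨e2.trans e1, e1⟩

/-- the difference of explicit parts with the same first argument -/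
lemma GJF_E {C2 C3 C4 : ℝ} (p2 : 0 < C2) (p3 : 0 < C3) (p4 : 0 < C4)
    (hE : ∀ (k : ℕ) (l l1 l2 : ℝ), 3 / 2 ≤ l → 1 ≤ l1 → 1 ≤ l2 →
      (l + l1 + l2) ^ 2 ≤ 2 ^ k →
      |Ex (pk k) (yk k) l l1 - Ex (pk k) (yk k) l l2| ≤ C2 * (l + l1 + l2) ^ 2 / √(2 ^ k))
    (hF : ∀ (k : ℕ) (l1 l2 δ : ℝ), 1 ≤ l1 → 1 ≤ l2 → 0 < δ → δ ≤ 1 →
      (∀ p : ℤ, δ ≤ |p - 5 * l1| ∧ δ ≤ |p - 5 * l2|) → 100 * (1 + l1 + l2) ^ 2 ≤ δ * 2 ^ k →
      |Ex (pk k) (yk k) 1 l1 - Ex (pk k) (yk k) 1 l2 + Real.log 2 / (4 * Real.pi) * L0 l1 l2| ≤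
        C3 * (1 + l1 + l2) ^ 2 / √δ / √(2 ^ k))
    (hL : ∀ l1 l2 δ : ℝ, 1 ≤ l1 → 1 ≤ l2 → 0 < δ → δ ≤ 1 →
      (∀ p : ℤ, δ ≤ |p - 5 * l1| ∧ δ ≤ |p - 5 * l2|) →
      Summable (fun m : ℤ =>
        |Real.log ((l1 ^ 2 - (m : ℝ) ^ 2 / 25) / (l2 ^ 2 - (m : ℝ) ^ 2 / 25))|) ∧
      |L0 l1 l2| ≤ C4 * (l1 + l2) ^ 2 * |l1 - l2| / δ)
    {k : ℕ} {x m S δ : ℝ} (hx : x = 1 ∨ 3 / 2 ≤ x) (hxS : x ≤ S) (hm : 1 ≤ m) (hmS : m ≤ S)
    (h0 : 0 < δ) (h1 : δ ≤ 1)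
    (hr : x = 1 → ∀ p : ℤ, δ / 4 ≤ |p - 5 * m| ∧ δ / 4 ≤ |p - 5 * S|)
    (hk : 10000 * S ^ 2 ≤ δ * 2 ^ k) :
    |Ex (pk k) (yk k) x m - Ex (pk k) (yk k) x S| ≤
      (9 * C2 + 18 * C3) * (S ^ 4 / √δ / √(√(2 ^ k))) + 16 * C4 * (S ^ 2 * (S - m) / δ) := by
  have hS : 1 ≤ S := hm.trans hmS
  have hk1 : (0 : ℝ) < 2 ^ k := by positivity
  have hsq : 0 < √((2 : ℝ) ^ k) := Real.sqrt_pos.2 hk1
  obtain ⟨c1, c2⟩ := GJF_c1 (k := k) h0 h1 hS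
  have hY : 0 ≤ S ^ 4 / √δ / √(√(2 ^ k)) := by positivity
  have hZ : 0 ≤ S ^ 2 * (S - m) / δ := by
    have : 0 ≤ S - m := by linarith
    positivity
  have hd0 : 0 < √δ := Real.sqrt_pos.2 h0
  rcases hx with hx | hx
  · subst hx
    have hr' := hr rfl
    have q1 : (1 + m + S) ^ 2 ≤ 9 * S ^ 2 := by nlinarith
    have e1 := hF k m S (δ / 4) hm hS (by linarith) (by linarith) hr' (by nlinarith)
    have e2 := (hL m S (δ / 4) hm hS (by linarith) (by linarith) hr').2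
    have e1' : C3 * (1 + m + S) ^ 2 / √(δ / 4) / √(2 ^ k) ≤
        18 * C3 * (S ^ 4 / √δ / √(√(2 ^ k))) := by
      calc C3 * (1 + m + S) ^ 2 / √(δ / 4) / √(2 ^ k)
          ≤ C3 * (9 * S ^ 2) / √(δ / 4) / √(2 ^ k) := by gcongr
        _ = 18 * C3 * (S ^ 2 / √δ / √(2 ^ k)) := by
            rw [GJF_sq h0]
            field_simp
            ring
        _ ≤ _ := by gcongr
    have e2' : C4 * (m + S) ^ 2 * |m - S| / (δ / 4) ≤ 16 * C4 * (S ^ 2 * (S - m) / δ) := by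
      have a1 : |m - S| = S - m := by
        rw [abs_of_nonpos (by linarith)]
        ring
      have a2 : (m + S) ^ 2 ≤ 4 * S ^ 2 := by nlinarith
      have a3 : 0 ≤ S - m := by linarith
      rw [a1]
      calc C4 * (m + S) ^ 2 * (S - m) / (δ / 4) ≤ C4 * (4 * S ^ 2) * (S - m) / (δ / 4) := by
            gcongr
        _ = _ := by
            field_simp
            ring
    have e3 : |Real.log 2 / (4 * Real.pi) * L0 m S| ≤ |L0 m S| := by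
      rw [abs_mul]
      have b1 : |Real.log 2 / (4 * Real.pi)| ≤ 1 := by
        rw [abs_of_nonneg (by positivity), div_le_one (by positivity)]
        have := Real.log_two_lt_d9
        have := Real.pi_gt_three
        linarith
      calc |Real.log 2 / (4 * Real.pi)| * |L0 m S| ≤ 1 * |L0 m S| := by gcongr
        _ = _ := one_mul _
    have e4 : |Ex (pk k) (yk k) 1 m - Ex (pk k) (yk k) 1 S| ≤
        |Ex (pk k) (yk k) 1 m - Ex (pk k) (yk k) 1 S + Real.log 2 / (4 * Real.pi) * L0 m S| +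
        |Real.log 2 / (4 * Real.pi) * L0 m S| := by
      have := abs_sub (Ex (pk k) (yk k) 1 m - Ex (pk k) (yk k) 1 S +
        Real.log 2 / (4 * Real.pi) * L0 m S) (Real.log 2 / (4 * Real.pi) * L0 m S)
      rwa [add_sub_cancel_right] at this
    have : 0 ≤ C2 * (S ^ 4 / √δ / √(√(2 ^ k))) := by positivity
    linarith
  · have q1 : (x + m + S) ^ 2 ≤ 9 * S ^ 2 := by nlinarith
    have q2 : 9 * S ^ 2 ≤ 2 ^ k := by nlinarith
    have e1 := hE k x m S hx hm hS (q1.trans q2)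
    have e1' : C2 * (x + m + S) ^ 2 / √(2 ^ k) ≤ 9 * C2 * (S ^ 4 / √δ / √(√(2 ^ k))) := by
      calc C2 * (x + m + S) ^ 2 / √(2 ^ k) ≤ C2 * (9 * S ^ 2) / √(2 ^ k) := by gcongr
        _ = 9 * C2 * (S ^ 2 / √(2 ^ k)) := by ring
        _ ≤ _ := by gcongr
    have : 0 ≤ C3 * (S ^ 4 / √δ / √(√(2 ^ k))) := by positivity
    have : 0 ≤ C4 * (S ^ 2 * (S - m) / δ) := by positivity
    linarith

/-- the difference of explicit parts with a large first argument -/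
lemma GJF_E2 {C2 : ℝ} (p2 : 0 < C2)
    (hE : ∀ (k : ℕ) (l l1 l2 : ℝ), 3 / 2 ≤ l → 1 ≤ l1 → 1 ≤ l2 →
      (l + l1 + l2) ^ 2 ≤ 2 ^ k →
      |Ex (pk k) (yk k) l l1 - Ex (pk k) (yk k) l l2| ≤ C2 * (l + l1 + l2) ^ 2 / √(2 ^ k))
    {k : ℕ} {x a b S δ : ℝ} (hx : 3 / 2 ≤ x) (hxS : x ≤ S) (ha : 1 ≤ a) (haS : a ≤ S)
    (hb : 1 ≤ b) (hbS : b ≤ S) (h0 : 0 < δ) (h1 : δ ≤ 1)
    (hk : 10000 * S ^ 2 ≤ δ * 2 ^ k) :
    |Ex (pk k) (yk k) x a - Ex (pk k) (yk k) x b| ≤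
      9 * C2 * (S ^ 4 / √δ / √(√(2 ^ k))) := by
  have hS : 1 ≤ S := ha.trans haS
  have hk1 : (0 : ℝ) < 2 ^ k := by positivity
  have hsq : 0 < √((2 : ℝ) ^ k) := Real.sqrt_pos.2 hk1
  obtain ⟨c1, c2⟩ := GJF_c1 (k := k) h0 h1 hS
  have q1 : (x + a + b) ^ 2 ≤ 9 * S ^ 2 := by nlinarith
  have q2 : 9 * S ^ 2 ≤ 2 ^ k := by nlinarith
  have e1 := hE k x a b hx ha hb (q1.trans q2)
  calc |Ex (pk k) (yk k) x a - Ex (pk k) (yk k) x b|
      ≤ C2 * (x + a + b) ^ 2 / √(2 ^ k) := e1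
    _ ≤ C2 * (9 * S ^ 2) / √(2 ^ k) := by gcongr
    _ = 9 * C2 * (S ^ 2 / √(2 ^ k)) := by ring
    _ ≤ _ := by gcongr

/-- the remainders of PKJ -/
lemma GJF_J {C1 : ℝ} (p1 : 0 < C1)
    (hJ : ∀ (k : ℕ) (l l' δ : ℝ), 1 ≤ l → 1 ≤ l' → 0 < δ → δ ≤ 1 →
      NR δ l l' → 25 * (l + l') ^ 2 ≤ δ * 2 ^ k →
      |jj (pk k) l l' - (Ex (pk k) (yk k) l l' - Ex (pk k) (yk k) l' l)| ≤
        C1 * (l + l') ^ 4 / √δ / √(√(2 ^ k)))
    {k : ℕ} {l l' S δ : ℝ} (hl : 1 ≤ l) (hl' : 1 ≤ l') (hlS : l ≤ S) (hlS' : l' ≤ S)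
    (h0 : 0 < δ) (h1 : δ ≤ 1) (hr : NR (δ / 4) l l')
    (hk : 10000 * S ^ 2 ≤ δ * 2 ^ k) :
    |jj (pk k) l l' - (Ex (pk k) (yk k) l l' - Ex (pk k) (yk k) l' l)| ≤
      32 * C1 * (S ^ 4 / √δ / √(√(2 ^ k))) := by
  have hS : 1 ≤ S := hl.trans hlS
  have q1 : l + l' ≤ 2 * S := by linarith
  have q2 : (l + l') ^ 2 ≤ (2 * S) ^ 2 := by gcongr
  have q4 : (l + l') ^ 4 ≤ (2 * S) ^ 4 := by gcongr
  have hd0 : 0 < √δ := Real.sqrt_pos.2 h0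
  have e1 := hJ k l l' (δ / 4) hl hl' (by linarith) (by linarith) hr (by nlinarith)
  calc |jj (pk k) l l' - (Ex (pk k) (yk k) l l' - Ex (pk k) (yk k) l' l)|
      ≤ C1 * (l + l') ^ 4 / √(δ / 4) / √(√(2 ^ k)) := e1
    _ ≤ C1 * (2 * S) ^ 4 / √(δ / 4) / √(√(2 ^ k)) := by gcongr
    _ = _ := by
        rw [GJF_sq h0]
        field_simp
        ring

/-- no resonance for the first pair -/
lemma GJF_R1 {δ a b m : ℝ} (h : NR δ a b) (h0 : 0 < δ) (hm : m ≤ a + b)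
    (hg : 10 * (a + b - m) ≤ δ) : NR (δ / 4) a m := by
  intro p1 p2
  by_contra hc
  push Not at hc
  obtain ⟨u, v⟩ := hc
  rw [abs_lt] at u v
  rcases h (p1 - p2) p2 with w | w
  · have : |((p1 - p2 : ℤ) : ℝ) - 5 * b| < δ := by
      push_cast
      rw [abs_lt]
      constructor <;> linarith [u.1, u.2, v.1, v.2]
    linarith
  · have : |(p2 : ℝ) - 5 * a| < δ := by
      rw [abs_lt]
      constructor <;> linarith [v.1, v.2]
    linarith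

/-- no resonance for the second pair -/
lemma GJF_R2 {δ a b m : ℝ} (h : NR δ a b) (h0 : 0 < δ) (hm : m ≤ a + b)
    (hg : 10 * (a + b - m) ≤ δ) : NR (δ / 4) m b := by
  intro p1 p2
  by_contra hc
  push Not at hc
  obtain ⟨u, v⟩ := hc
  rw [abs_lt] at u v
  rcases h p1 (p2 - p1) with w | w
  · have : |(p1 : ℝ) - 5 * b| < δ := by
      rw [abs_lt]
      constructor <;> linarith [u.1, u.2]
    linarith
  · have : |((p2 - p1 : ℤ) : ℝ) - 5 * a| < δ := by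
      push_cast
      rw [abs_lt]
      constructor <;> linarith [u.1, u.2, v.1, v.2]
    linarith

/-- GJF -/
theorem GJF (hA : PKA_stmt) (h5 : J5_stmt) (hJ : PKJ_stmt) (hE : PKE_stmt) (hF : PKF_stmt)
    (hL : L0B_stmt) : GJF_stmt := by
  obtain ⟨C1, p1, hJ⟩ := hJ
  obtain ⟨C2, p2, hE⟩ := hE
  obtain ⟨C3, p3, hF⟩ := hF
  obtain ⟨C4, p4, hL⟩ := hL
  refine ⟨128 * C1 + 36 * C2 + 36 * C3 + 32 * C4, by positivity, ?_⟩
  intro k a b m δ hN h0 h1 hR hg hk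
  obtain ⟨ha, hb, -, hm, hmS⟩ := hN
  have ha1 : 1 ≤ a := by rcases ha with h | h <;> linarith
  have hb1 : 1 ≤ b := by rcases hb with h | h <;> linarith
  have hP : Prof (pk k) := (hA.2.2 k).1
  have e5 := h5 (pk k) hP a b (by linarith) (by linarith)
  set S := a + b with hS
  have hgS : 10 * (a + b - S) ≤ δ := by
    rw [hS]
    linarith
  have r1 : NR (δ / 4) a m := GJF_R1 hR h0 hmS hg
  have r2 : NR (δ / 4) a S := GJF_R1 hR h0 le_rfl hgS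
  have r3 : NR (δ / 4) m b := GJF_R2 hR h0 hmS hg
  have r4 : NR (δ / 4) S b := GJF_R2 hR h0 le_rfl hgS
  have aS : a ≤ S := by linarith
  have bS : b ≤ S := by linarith
  have m1 : 1 ≤ m := by linarith
  have S1 : 1 ≤ S := by linarith
  have j1 := GJF_J p1 hJ ha1 m1 aS hmS h0 h1 r1 hk
  have j2 := GJF_J p1 hJ ha1 S1 aS le_rfl h0 h1 r2 hk
  have j3 := GJF_J p1 hJ m1 hb1 hmS bS h0 h1 r3 hk
  have j4 := GJF_J p1 hJ S1 hb1 le_rfl bS h0 h1 r4 hk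
  have f1 := GJF_E p2 p3 p4 hE hF hL (k := k) (m := m) ha aS m1 hmS h0 h1 (by
    intro hx p
    subst hx
    constructor
    · rcases r1 p 5 with h | h
      · exact h
      · exfalso
        norm_num at h
        linarith
    · rcases r2 p 5 with h | h
      · exact h
      · exfalso
        norm_num at h
        linarith) hk
  have f2 := GJF_E p2 p3 p4 hE hF hL (k := k) (m := m) hb bS m1 hmS h0 h1 (by
    intro hx p
    subst hx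
    constructor
    · rcases r3 5 p with h | h
      · exfalso
        norm_num at h
        linarith
      · exact h
    · rcases r4 5 p with h | h
      · exfalso
        norm_num at h
        linarith
      · exact h) hk
  have f3 := GJF_E2 p2 hE (k := k) (x := m) (a := b) (b := a) (by linarith) hmS hb1 bS ha1 aS
    h0 h1 hk
  have f4 := GJF_E2 p2 hE (k := k) (x := S) (a := a) (b := b) (by linarith) le_rfl ha1 aS hb1 bS
    h0 h1 hk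
  have hY : 0 ≤ S ^ 4 / √δ / √(√(2 ^ k)) := by positivity
  have hZ : 0 ≤ S ^ 2 * (S - m) / δ := by
    have : 0 ≤ S - m := by linarith
    positivity
  have y1 : 0 ≤ C1 * (S ^ 2 * (S - m) / δ) := by positivity
  have y2 : 0 ≤ C2 * (S ^ 2 * (S - m) / δ) := by positivity
  have y3 : 0 ≤ C3 * (S ^ 2 * (S - m) / δ) := by positivity
  have y4 : 0 ≤ C4 * (S ^ 4 / √δ / √(√(2 ^ k))) := by positivity
  have t1 : (128 * C1 + 36 * C2 + 36 * C3 + 32 * C4) * S ^ 4 / √δ / √(√(2 ^ k)) +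
      (128 * C1 + 36 * C2 + 36 * C3 + 32 * C4) * S ^ 2 * (S - m) / δ =
      (128 * C1 + 36 * C2 + 36 * C3 + 32 * C4) * (S ^ 4 / √δ / √(√(2 ^ k))) +
      (128 * C1 + 36 * C2 + 36 * C3 + 32 * C4) * (S ^ 2 * (S - m) / δ) := by ring
  rw [t1, e5]
  rw [abs_le] at j1 j2 j3 j4 f1 f2 f3 f4 ⊢
  constructor
  · linarith [j1.1, j1.2, j2.1, j2.2, j3.1, j3.2, j4.1, j4.2, f1.1, f1.2, f2.1, f2.2, f3.1, f3.2,
      f4.1, f4.2]
  · linarith [j1.1, j1.2, j2.1, j2.2, j3.1, j3.2, j4.1, j4.2, f1.1, f1.2, f2.1, f2.2, f3.1, f3.2,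
      f4.1, f4.2]

end SF
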