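import Pool.Agent.helper68.SF.SpecF

set_option autoImplicit false

namespace SF

open Pool.Agent.helper72.Sq Matrix

theorem MIR_a : bet ga = ga := by unfold bet; exact mk2_a _ _

theorem MIR_b : bet gb = gb⁻¹ := by unfold bet; exact mk2_b _ _

theorem MIR_bet (g : F2) : bet (bet g) = g := by
  have h : bet.comp bet = MonoidHom.id F2 := by
    apply F2_hom_ext
    · show bet (bet ga) = ga
      rw [MIR_a, MIR_a]
    · show bet (bet gb) = gb
      rw [MIR_b, map_inv, MIR_b, inv_inv]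
  exact DFunLike.congr_fun h g

/-- conjugation of a mapping class by the mirror image -/
theorem MIR_conj (φ : MulAut F2) (hφ : φ ∈ MCG) :
    ∃ φ' : MulAut F2, φ' ∈ MCG ∧ ∃ c : F2, ∀ g : F2, bet (φ (bet g)) = c * φ' g * c⁻¹ := by
  have hA : twA ∈ MCG := Subgroup.subset_closure (by simp)
  have hB : twB ∈ MCG := Subgroup.subset_closure (by simp)
  unfold MCG at hφ
  refine Subgroup.closure_induction (p := fun φ _ => ∃ φ' : MulAut F2, φ' ∈ MCG ∧
    ∃ c : F2, ∀ g : F2, bet (φ (bet g)) = c * φ' g * c⁻¹) ?_ ?_ ?_ ?_ hφ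
  · intro x hx
    rcases hx with rfl | hx
    · refine ⟨(twA : MulAut F2)⁻¹, MCG.inv_mem hA, ga, ?_⟩
      have h : (bet.comp (twA : F2 →* F2)).comp bet =
          (MulAut.conj ga).toMonoidHom.comp (twA.symm : F2 →* F2) := by
        apply F2_hom_ext
        · show bet (twA (bet ga)) = ga * twA.symm ga * ga⁻¹
          rw [MIR_a, twA_a, MIR_a, twA_symm_a]
          group
        · show bet (twA (bet gb)) = ga * twA.symm gb * ga⁻¹
          rw [MIR_b, map_inv, twA_b, map_inv, map_mul, MIR_a, MIR_b, twA_symm_b]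
          group
      exact fun g => DFunLike.congr_fun h g
    · have hx' : x = twB := hx
      subst hx'
      refine ⟨(twB : MulAut F2)⁻¹, MCG.inv_mem hB, 1, ?_⟩
      have h : (bet.comp (twB : F2 →* F2)).comp bet =
          (MulAut.conj 1).toMonoidHom.comp (twB.symm : F2 →* F2) := by
        apply F2_hom_ext
        · show bet (twB (bet ga)) = 1 * twB.symm ga * 1⁻¹
          rw [MIR_a, twB_a, map_mul, MIR_a, MIR_b, twB_symm_a]
          group
        · show bet (twB (bet gb)) = 1 * twB.symm gb * 1⁻¹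
          rw [MIR_b, map_inv, twB_b, map_inv, MIR_b, twB_symm_b]
          group
      exact fun g => DFunLike.congr_fun h g
  · refine ⟨1, MCG.one_mem, 1, fun g => ?_⟩
    show bet (bet g) = 1 * g * 1⁻¹
    rw [MIR_bet]
    group
  · rintro x y _ _ ⟨x', hx', c, hc⟩ ⟨y', hy', d, hd⟩
    refine ⟨x' * y', MCG.mul_mem hx' hy', c * x' d, fun g => ?_⟩
    have h1 : (x * y) (bet g) = x (bet (bet (y (bet g)))) := by
      rw [MIR_bet]; rfl
    rw [h1, hc, hd]
    show c * x' (d * y' g * d⁻¹) * c⁻¹ = c * x' d * x' (y' g) * (c * x' d)⁻¹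
    rw [map_mul, map_mul, map_inv]
    group
  · rintro x _ ⟨x', hx', c, hc⟩
    refine ⟨x'⁻¹, MCG.inv_mem hx', x'⁻¹ c⁻¹, fun g => ?_⟩
    have h1 := hc (bet (x⁻¹ (bet g)))
    have h2 : x (x⁻¹ (bet g)) = bet g := by
      show (x * x⁻¹) (bet g) = bet g
      rw [mul_inv_cancel]; rfl
    rw [MIR_bet, h2, MIR_bet] at h1
    have h3 : x' (bet (x⁻¹ (bet g))) = c⁻¹ * g * c := by
      have h6 : c⁻¹ * g * c = c⁻¹ * (c * x' (bet (x⁻¹ (bet g))) * c⁻¹) * c := by rw [← h1]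
      rw [h6]
      generalize x' (bet (x⁻¹ (bet g))) = t
      group
    have h4 : bet (x⁻¹ (bet g)) = x'⁻¹ (c⁻¹ * g * c) := by
      rw [← h3]
      show _ = (x'⁻¹ * x') (bet (x⁻¹ (bet g)))
      rw [inv_mul_cancel]; rfl
    rw [h4, map_mul, map_mul]
    have h5 : (x'⁻¹ c⁻¹)⁻¹ = x'⁻¹ c := by rw [← map_inv, inv_inv]
    rw [h5]

/-- the mirror image of a curve -/
def MIR_C : Curve → Curve :=
  Quotient.lift (s := curveSetoid) (fun g => cl (bet g)) (fun _ _ h => cl_map bet (Quotient.sound h))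

theorem MIR_C_cl (g : F2) : MIR_C (cl g) = cl (bet g) := rfl

theorem MIR_C_C (c : Curve) : MIR_C (MIR_C c) = c := by
  obtain ⟨g, rfl⟩ := Quotient.exists_rep c
  show cl (bet (bet g)) = cl g
  rw [MIR_bet]

theorem MIR_len (ρ : F2 →* SpecialLinearGroup (Fin 2) ℝ) (c : Curve) :
    cLen ρ (MIR_C c) = cLen (ρ.comp bet) c := by
  obtain ⟨g, rfl⟩ := Quotient.exists_rep c
  rfl

theorem MIR_orb (g : F2) (c : Curve) (hc : c ∈ orb g) : MIR_C c ∈ orb (bet g) := by
  obtain ⟨φ, hφ, rfl⟩ := hc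
  obtain ⟨φ', hφ', d, hd⟩ := MIR_conj φ hφ
  refine ⟨φ', hφ', ?_⟩
  rw [MIR_C_cl]
  have h := hd (bet g)
  rw [MIR_bet] at h
  rw [h]
  exact (cl_of_isConj (isConj_iff.2 ⟨d, rfl⟩)).symm

/-- the bijection of the orbits -/
def MIR_equiv (g g' : F2) (h : bet g = g') : orb g ≃ orb g' where
  toFun x := ⟨MIR_C x, by rw [← h]; exact MIR_orb g x x.2⟩
  invFun x := ⟨MIR_C x, by
    have h' : bet g' = g := by rw [← h, MIR_bet]
    rw [← h']; exact MIR_orb g' x x.2⟩
  left_inv x := Subtype.ext (MIR_C_C x)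
  right_inv x := Subtype.ext (MIR_C_C x)

theorem MIR_WL (ρ ρ' : F2 →* SpecialLinearGroup (Fin 2) ℝ) (g g' : F2) (h : bet g = g')
    (hl : ∀ c : Curve, cLen ρ' c = cLen ρ (MIR_C c)) (hW : WL ρ' g) : WL ρ g' := by
  obtain ⟨e, he, u, v, C, hC⟩ := hW
  refine ⟨e.trans (MIR_equiv g g' h), ?_, u, v, C, ?_⟩
  · intro k k' hk
    have := he hk
    simp only [hl] at this
    exact this
  · intro k
    have := hC k
    rw [hl] at this
    exact this

theorem MIR : MIR_stmt := by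
  intro ρ hA
  refine ⟨?_, ?_, ?_⟩
  · have e : trTri (ρ.comp bet) (ga, gb) = ((trTri ρ (ga, gb)).1, (trTri ρ (ga, gb)).2.1,
        (trTri ρ (ga, gb)).1 * (trTri ρ (ga, gb)).2.1 - (trTri ρ (ga, gb)).2.2) := by
      unfold trTri
      simp only [MonoidHom.comp_apply, map_mul, MIR_a, MIR_b, map_inv, tr_inv, Prod.mk.injEq,
        true_and]
      have h1 := congrArg (fun t : Tri => t.2.2) (trTri_Tw ρ)
      simp only [trTri, Tw, map_mul, map_inv] at h1
      have h2 : tr (ρ ga * (ρ gb)⁻¹) = tr (ρ gb * (ρ ga)⁻¹) := by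
        rw [← tr_inv (ρ gb * (ρ ga)⁻¹)]
        congr 1
        group
      rw [h2, h1]
    rw [e]
    refine ⟨hA.x2, hA.y2, ?_⟩
    have hk := hA.kpos
    unfold kap at hk ⊢
    simp only
    nlinarith [hk]
  · intro hW
    refine MIR_WL ρ (ρ.comp bet) (ga ^ 4 * gb ^ 3) _ ?_ (fun c => (MIR_len ρ c).symm) hW
    rw [map_mul, map_pow, map_pow, MIR_a, MIR_b, inv_pow]
  · intro hW
    refine MIR_WL (ρ.comp bet) ρ (ga ^ 4 * (gb ^ 3)⁻¹) _ ?_ (fun c => ?_) hW
    · rw [map_mul, map_pow, map_inv, map_pow, MIR_a, MIR_b, inv_pow, inv_inv]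
    · rw [← MIR_len, MIR_C_C]

end SF
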