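import Pool.Agent.helper68.SF.SpecS
import Pool.Agent.helper68.AM.FinalX
import Pool.Agent.helper72.SF.T
import Pool.Agent.helper72.SF.T9
import Pool.Agent.helper18.SF.T1
import Pool.Agent.helper52.SF.T2
import Pool.Agent.helper43.SF.T3
import Pool.Agent.helper25.SF.T4
import Pool.Agent.helper34.SF.T5
import Pool.Agent.helper31.SF.T6
import Pool.Agent.helper6.SF.T7
import Pool.Agent.helper51.SF.T8
import Pool.Agent.helper65.SF.T10
import Pool.Agent.helper84.SF.T11

set_option autoImplicit false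

namespace SF

open Pool.Agent.helper72.Sq AM

/-- block T of project sf: (no hypotheses) -/
theorem TT : T_stmt := by
  have h2 : T2_stmt := T2 T1 (XT XC XQ)
  have h3 : T3_stmt := T3 h2 XM XE
  have h7 : T7_stmt := T7 XZ tot
  exact T FX_XF h7 (T9 h3 T4 (T5 XB) T6 h7 T8) T10 T11

theorem TZ : TZ_stmt := by
  intro ρ hA
  obtain ⟨h1, h2, h3⟩ := TT ρ hA
  exact ⟨⟨h1, h2⟩, h3⟩

end SF
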